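import Mathlib

set_option autoImplicit false

/-!
# Rational solutions of the quantum multiplication functional equation

For a set `P` of primes, every sequence of rational functions with support `S(P)` which satisfies
`f_{mn}(q) = f_m(q) f_n(q^m)` is a quotient of two sequences of polynomials with support `S(P)`
satisfying the same equation if and only if `P` has at most one element.
-/

namespace Pool.Agent.L0h37.Known.QuotientsIffOnePrime

open Polynomial nonZeroDivisors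

/-- The rational function `g(q^m)`, for a rational function `g(q)`. -/
noncomputable def subst (m : ℕ) (g : RatFunc ℂ) : RatFunc ℂ :=
  algebraMap ℂ[X] (RatFunc ℂ) (expand ℂ m g.num) /
    algebraMap ℂ[X] (RatFunc ℂ) (expand ℂ m g.denom)

/-- `S(P)`: the positive integers all of whose prime factors belong to `P`. -/
def S (P : Set ℕ) : Set ℕ := {n | 0 < n ∧ ∀ p : ℕ, p.Prime → p ∣ n → p ∈ P}

/-- The sequences `f_1, f_2, ...` of rational functions with support `S(P)` such that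
`f_{mn}(q) = f_m(q) f_n(q^m)` for all positive integers `m`, `n` (`f 0` plays no role). -/
def RationalSolution (P : Set ℕ) (f : ℕ → RatFunc ℂ) : Prop :=
  (∀ n, 0 < n → (f n ≠ 0 ↔ n ∈ S P)) ∧
    ∀ m n, 0 < m → 0 < n → f (m * n) = f m * subst m (f n)

/-- `Γ(P)`: the sequences of polynomials with support `S(P)` such that
`f_{mn}(q) = f_m(q) f_n(q^m)` for all positive integers `m`, `n`. -/
def Gamma (P : Set ℕ) (F : ℕ → ℂ[X]) : Prop :=
  (∀ n, 0 < n → (F n ≠ 0 ↔ n ∈ S P)) ∧
    ∀ m n, 0 < m → 0 < n → F (m * n) = F m * expand ℂ m (F n)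

/-- `K(Γ(P))`: the quotients of two sequences in `Γ(P)`. -/
def K (P : Set ℕ) (f : ℕ → RatFunc ℂ) : Prop :=
  ∃ F G : ℕ → ℂ[X], Gamma P F ∧ Gamma P G ∧ ∀ n, 0 < n →
    (n ∈ S P → f n = algebraMap ℂ[X] (RatFunc ℂ) (F n) / algebraMap ℂ[X] (RatFunc ℂ) (G n)) ∧
    (n ∉ S P → f n = 0)

lemma one_mem (P : Set ℕ) : 1 ∈ S P :=
  ⟨one_pos, fun _ hp h => absurd (Nat.dvd_one.mp h) hp.one_lt.ne'⟩

lemma mul_mem_iff (P : Set ℕ) {m n : ℕ} (hm : 0 < m) (hn : 0 < n) :
    m * n ∈ S P ↔ m ∈ S P ∧ n ∈ S P := by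
  constructor
  · rintro ⟨_, h⟩
    exact ⟨⟨hm, fun p hp hd => h p hp (hd.mul_right n)⟩,
      ⟨hn, fun p hp hd => h p hp (hd.mul_left m)⟩⟩
  · rintro ⟨h1, h2⟩
    refine ⟨Nat.mul_pos hm hn, fun p hp hd => ?_⟩
    rcases hp.dvd_mul.mp hd with h | h
    · exact h1.2 p hp h
    · exact h2.2 p hp h

lemma prime_mem {P : Set ℕ} {p : ℕ} (hp : p.Prime) (h : p ∈ P) : p ∈ S P :=
  ⟨hp.pos, fun q hq hd => by rwa [(Nat.prime_dvd_prime_iff_eq hq hp).mp hd]⟩

lemma pow_mem {P : Set ℕ} {p : ℕ} (hp : p.Prime) (h : p ∈ P) (k : ℕ) : p ^ k ∈ S P := by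
  induction k with
  | zero => simpa using one_mem P
  | succ k ih =>
    rw [pow_succ]
    exact (mul_mem_iff P (pow_pos hp.pos k) hp.pos).mpr ⟨ih, prime_mem hp h⟩

lemma subst_div (m : ℕ) (hm : 0 < m) (a b : ℂ[X]) :
    subst m (algebraMap ℂ[X] (RatFunc ℂ) a / algebraMap ℂ[X] (RatFunc ℂ) b) =
      algebraMap ℂ[X] (RatFunc ℂ) (expand ℂ m a) /
        algebraMap ℂ[X] (RatFunc ℂ) (expand ℂ m b) := by
  have hφ : ℂ[X]⁰ ≤ ℂ[X]⁰.comap (expand ℂ m) := by
    intro x hx
    rw [Submonoid.mem_comap]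
    exact mem_nonZeroDivisors_of_ne_zero
      ((expand_ne_zero hm).mpr (nonZeroDivisors.ne_zero hx))
  have h1 : ∀ g : RatFunc ℂ, subst m g = RatFunc.map (expand ℂ m) hφ g := by
    intro g
    rw [RatFunc.map_apply]
    rfl
  rw [h1, RatFunc.map_apply_div]

section roots

variable {P : Set ℕ} {G : ℕ → ℂ[X]} (hG : Gamma P G)

include hG

lemma G_one : G 1 = 1 := by
  have h := hG.2 1 1 one_pos one_pos
  have h0 : G 1 ≠ 0 := (hG.1 1 one_pos).mpr (one_mem P)
  rw [mul_one, expand_one] at h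
  exact (mul_eq_left₀ h0).mp h.symm

lemma eval_mul {m n : ℕ} (hm : 0 < m) (hn : 0 < n) (x : ℂ) :
    (G (m * n)).eval x = (G m).eval x * (G n).eval (x ^ m) := by
  rw [hG.2 m n hm hn, Polynomial.eval_mul, expand_eval]

/-- a zero of `G (p^k)` comes from a zero of `G p`. -/
lemma zero_pow {p : ℕ} (hp : 0 < p) (k : ℕ) :
    ∀ x : ℂ, (G (p ^ k)).eval x = 0 → ∃ s, (G p).eval (x ^ p ^ s) = 0 := by
  induction k with
  | zero =>
    intro x h
    rw [pow_zero, G_one hG, eval_one] at h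
    exact absurd h one_ne_zero
  | succ k ih =>
    intro x h
    rw [pow_succ, eval_mul hG (pow_pos hp k) hp] at h
    rcases mul_eq_zero.mp h with h | h
    · exact ih x h
    · exact ⟨k, h⟩

/-- A polynomial solution has no zero at `2`, if there are two primes. -/
lemma no_zero {p r : ℕ} (hp : p.Prime) (hr : r.Prime) (hpr : p ≠ r) (hpP : p ∈ P) (hrP : r ∈ P) :
    (G p).eval 2 ≠ 0 := by
  intro h2
  have hGp : G p ≠ 0 := (hG.1 p hp.pos).mpr (prime_mem hp hpP)
  have hGr : G r ≠ 0 := (hG.1 r hr.pos).mpr (prime_mem hr hrP)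
  -- the roots of `G p` are bounded
  obtain ⟨R, hR⟩ : ∃ R : ℝ, ∀ y : ℝ, R < y → (G p).eval (y : ℂ) ≠ 0 := by
    obtain ⟨R, hR⟩ := (((G p).roots.toFinset.image (fun z : ℂ => ‖z‖)).finite_toSet).bddAbove
    refine ⟨R, fun y hy h0 => ?_⟩
    have hmem : ‖(y : ℂ)‖ ∈ ((G p).roots.toFinset.image (fun z : ℂ => ‖z‖) : Set ℝ) := by
      rw [Finset.coe_image]
      refine ⟨(y : ℂ), ?_, rfl⟩
      rw [Finset.mem_coe, Multiset.mem_toFinset, mem_roots hGp]
      exact h0
    have h1 := hR hmem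
    rw [Complex.norm_real, Real.norm_eq_abs] at h1
    exact absurd (lt_of_lt_of_le hy (le_abs_self y)) (not_lt.mpr h1)
  have key : ∀ j : ℕ, ∃ x : ℝ, 1 < x ∧ x ^ p ^ j = 2 ∧ ∃ s : ℕ,
      (G r).eval (((x ^ r ^ s : ℝ)) : ℂ) = 0 := by
    intro j
    have hpj : p ^ j ≠ 0 := (pow_pos hp.pos j).ne'
    set x : ℝ := (2 : ℝ) ^ (((p ^ j : ℕ) : ℝ)⁻¹) with hx
    have hx2 : x ^ p ^ j = 2 := Real.rpow_inv_natCast_pow (by norm_num) hpj
    have hx1 : 1 < x := by
      by_contra hcon
      have hx0 : 0 ≤ x := Real.rpow_nonneg (by norm_num) _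
      have : x ^ p ^ j ≤ 1 := pow_le_one₀ hx0 (not_lt.mp hcon)
      rw [hx2] at this
      norm_num at this
    refine ⟨x, hx1, hx2, ?_⟩
    obtain ⟨i, hi⟩ := pow_unbounded_of_one_lt R hx1
    have hri : R < x ^ r ^ i :=
      lt_of_lt_of_le hi (pow_le_pow_right₀ hx1.le (Nat.lt_pow_self hr.one_lt).le)
    have hz : (G (p ^ j * p)).eval (x : ℂ) = 0 := by
      rw [eval_mul hG (pow_pos hp.pos j) hp.pos]
      have : ((x : ℂ)) ^ p ^ j = 2 := by
        rw [← Complex.ofReal_pow, hx2]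
        norm_num
      rw [this, h2, mul_zero]
    rw [← pow_succ] at hz
    have hprod : (G (r ^ i * p ^ (j + 1))).eval (x : ℂ) = 0 := by
      rw [mul_comm, eval_mul hG (pow_pos hp.pos _) (pow_pos hr.pos _), hz, zero_mul]
    rw [eval_mul hG (pow_pos hr.pos _) (pow_pos hp.pos _)] at hprod
    rcases mul_eq_zero.mp hprod with h | h
    · obtain ⟨s, hs⟩ := zero_pow hG hr.pos i _ h
      refine ⟨s, ?_⟩
      rw [Complex.ofReal_pow]
      exact hs
    · exfalso
      obtain ⟨s, hs⟩ := zero_pow hG hp.pos (j + 1) _ h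
      rw [← Complex.ofReal_pow, ← Complex.ofReal_pow] at hs
      refine hR _ ?_ hs
      have h1 : 1 ≤ x ^ r ^ i := one_le_pow₀ hx1.le
      exact lt_of_lt_of_le hri (le_self_pow₀ h1 (pow_pos hp.pos s).ne')
  choose x hx1 hx2 s hs using key
  have hinj : Function.Injective (fun j => (((x j) ^ r ^ (s j) : ℝ) : ℂ)) := by
    intro j j' hjj
    have e : (x j) ^ r ^ (s j) = (x j') ^ r ^ (s j') := Complex.ofReal_injective hjj
    have e2 : (2 : ℝ) ^ (r ^ s j * p ^ j') = (2 : ℝ) ^ (r ^ s j' * p ^ j) := by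
      calc (2 : ℝ) ^ (r ^ s j * p ^ j') = ((x j) ^ p ^ j) ^ (r ^ s j * p ^ j') := by rw [hx2]
        _ = ((x j) ^ r ^ s j) ^ (p ^ j * p ^ j') := by rw [← pow_mul, ← pow_mul]; ring_nf
        _ = ((x j') ^ r ^ s j') ^ (p ^ j * p ^ j') := by rw [e]
        _ = ((x j') ^ p ^ j') ^ (r ^ s j' * p ^ j) := by rw [← pow_mul, ← pow_mul]; ring_nf
        _ = _ := by rw [hx2]
    have e3 : r ^ s j * p ^ j' = r ^ s j' * p ^ j :=
      pow_right_injective₀ (by norm_num) (by norm_num) e2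
    have e4 := congrArg (fun n => n.factorization p) e3
    rw [Nat.factorization_mul (pow_pos hr.pos _).ne' (pow_pos hp.pos _).ne',
      Nat.factorization_mul (pow_pos hr.pos _).ne' (pow_pos hp.pos _).ne',
      Nat.factorization_pow, Nat.factorization_pow, Nat.factorization_pow, Nat.factorization_pow,
      hr.factorization, hp.factorization] at e4
    simp [Finsupp.single_apply, hpr.symm] at e4
    exact e4.symm
  have hsub : Set.range (fun j => (((x j) ^ r ^ (s j) : ℝ) : ℂ)) ⊆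
      ((G r).roots.toFinset : Set ℂ) := by
    rintro _ ⟨j, rfl⟩
    rw [Finset.mem_coe, Multiset.mem_toFinset, mem_roots hGr]
    exact hs j
  exact (Set.infinite_range_of_injective hinj) ((Finset.finite_toSet _).subset hsub)

end roots

/-- The counterexample `f_n(q) = (q^n - 2) / (q - 2)`. -/
lemma not_K {P : Set ℕ} {p r : ℕ} (hp : p.Prime) (hr : r.Prime) (hpr : p ≠ r) (hpP : p ∈ P)
    (hrP : r ∈ P) : ∃ f, RationalSolution P f ∧ ¬ K P f := by
  classical
  set f : ℕ → RatFunc ℂ := fun n => if n ∈ S P then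
    algebraMap ℂ[X] (RatFunc ℂ) (X ^ n - C 2) / algebraMap ℂ[X] (RatFunc ℂ) (X - C 2) else 0
    with hf
  have hne : ∀ n : ℕ, 0 < n → algebraMap ℂ[X] (RatFunc ℂ) (X ^ n - C 2) ≠ 0 := fun n hn =>
    RatFunc.algebraMap_ne_zero (X_pow_sub_C_ne_zero hn 2)
  have hne1 : algebraMap ℂ[X] (RatFunc ℂ) (X - C 2) ≠ 0 :=
    RatFunc.algebraMap_ne_zero (X_sub_C_ne_zero 2)
  refine ⟨f, ⟨?_, ?_⟩, ?_⟩
  · intro n hn
    by_cases h : n ∈ S P
    · simp only [hf, if_pos h, h, iff_true]
      exact div_ne_zero (hne n hn) hne1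
    · simp [hf, h]
  · intro m n hm hn
    by_cases h : m * n ∈ S P
    · obtain ⟨h1, h2⟩ := (mul_mem_iff P hm hn).mp h
      simp only [hf, if_pos h, if_pos h1, if_pos h2]
      rw [subst_div m hm]
      have e1 : expand ℂ m (X ^ n - C 2) = X ^ (m * n) - C 2 := by
        rw [map_sub, map_pow, expand_X, expand_C, ← pow_mul]
      have e2 : expand ℂ m (X - C 2) = X ^ m - C 2 := by
        rw [map_sub, expand_X, expand_C]
      rw [e1, e2]
      have := hne m hm
      field_simp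
    · simp only [hf, if_neg h]
      by_cases h1 : m ∈ S P
      · have h2 : n ∉ S P := fun h2 => h ((mul_mem_iff P hm hn).mpr ⟨h1, h2⟩)
        rw [if_neg h2]
        have : subst m 0 = 0 := by simp [subst]
        rw [this, mul_zero]
      · rw [if_neg h1, zero_mul]
  · rintro ⟨F, G, -, hG, hFG⟩
    refine no_zero hG hp hr hpr hpP hrP ?_
    have hpS := prime_mem hp hpP
    have h1 := (hFG p hp.pos).1 hpS
    have hGp : G p ≠ 0 := (hG.1 p hp.pos).mpr hpS
    simp only [hf, if_pos hpS] at h1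
    rw [div_eq_div_iff hne1 (RatFunc.algebraMap_ne_zero hGp), ← map_mul, ← map_mul] at h1
    have h2 := RatFunc.algebraMap_injective ℂ h1
    have h3 := congrArg (Polynomial.eval 2) h2
    rw [Polynomial.eval_mul, Polynomial.eval_mul, eval_sub, eval_sub, eval_pow, eval_X, eval_C,
      sub_self, mul_zero] at h3
    rcases mul_eq_zero.mp h3 with h | h
    · exfalso
      have h4 : (2 : ℂ) ^ p = 2 ^ 1 := by rw [pow_one]; exact sub_eq_zero.mp h
      have h5 : ((2 ^ p : ℕ) : ℂ) = ((2 ^ 1 : ℕ) : ℂ) := by rw [Nat.cast_pow, Nat.cast_pow, Nat.cast_ofNat]; exact h4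
      have h6 : 2 ^ p = 2 ^ 1 := Nat.cast_injective h5
      exact hp.one_lt.ne' (Nat.pow_right_injective le_rfl h6)
    · exact h

/-- The polynomial solution for `P = {p}` with `f_p = A`. -/
noncomputable def sol (p : ℕ) (A : ℂ[X]) (n : ℕ) : ℂ[X] :=
  open Classical in
  if n ∈ S {p} then ∏ i ∈ Finset.range (n.factorization p), expand ℂ (p ^ i) A else 0

lemma mem_S_singleton {p n : ℕ} (h : n ∈ S {p}) : ∃ k, n = p ^ k :=
  ⟨_, Nat.eq_prime_pow_of_unique_prime_dvd h.1.ne' (fun {d} hd hdn => h.2 d hd hdn)⟩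

lemma sol_pow {p : ℕ} (hp : p.Prime) (A : ℂ[X]) (k : ℕ) :
    sol p A (p ^ k) = ∏ i ∈ Finset.range k, expand ℂ (p ^ i) A := by
  rw [sol, if_pos (pow_mem hp (Set.mem_singleton p) k), hp.factorization_pow,
    Finsupp.single_eq_same]

lemma sol_not_mem {p n : ℕ} (A : ℂ[X]) (h : n ∉ S {p}) : sol p A n = 0 := by
  rw [sol, if_neg h]

lemma sol_Gamma {p : ℕ} (hp : p.Prime) {A : ℂ[X]} (hA : A ≠ 0) : Gamma {p} (sol p A) := by
  refine ⟨fun n hn => ?_, fun m n hm hn => ?_⟩
  · constructor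
    · intro h
      by_contra hcon
      exact h (sol_not_mem A hcon)
    · intro h
      obtain ⟨k, rfl⟩ := mem_S_singleton h
      rw [sol_pow hp]
      exact Finset.prod_ne_zero_iff.mpr fun i _ => (expand_ne_zero (pow_pos hp.pos i)).mpr hA
  · by_cases h : m * n ∈ S {p}
    · obtain ⟨h1, h2⟩ := (mul_mem_iff _ hm hn).mp h
      obtain ⟨k, rfl⟩ := mem_S_singleton h1
      obtain ⟨l, rfl⟩ := mem_S_singleton h2
      rw [← pow_add, sol_pow hp, sol_pow hp, sol_pow hp, Finset.prod_range_add, map_prod]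
      congr 1
      refine Finset.prod_congr rfl fun i _ => ?_
      rw [expand_expand, pow_add]
    · rw [sol_not_mem A h]
      by_cases h1 : m ∈ S {p}
      · have h2 : n ∉ S {p} := fun h2 => h ((mul_mem_iff _ hm hn).mpr ⟨h1, h2⟩)
        rw [sol_not_mem A h2, map_zero, mul_zero]
      · rw [sol_not_mem A h1, zero_mul]

lemma K_singleton {p : ℕ} (hp : p.Prime) {f : ℕ → RatFunc ℂ} (hf : RationalSolution {p} f) :
    K {p} f := by
  have hfp : f p ≠ 0 := (hf.1 p hp.pos).mpr (prime_mem hp (Set.mem_singleton p))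
  refine ⟨sol p (f p).num, sol p (f p).denom, sol_Gamma hp (RatFunc.num_ne_zero hfp),
    sol_Gamma hp (RatFunc.denom_ne_zero _), fun n hn => ⟨fun h => ?_, fun h => ?_⟩⟩
  · obtain ⟨k, rfl⟩ := mem_S_singleton h
    clear h hn
    induction k with
    | zero =>
      rw [sol_pow hp, sol_pow hp, pow_zero, Finset.prod_range_zero, Finset.prod_range_zero,
        map_one, div_one]
      have h1 := hf.2 1 1 one_pos one_pos
      have h0 : f 1 ≠ 0 := (hf.1 1 one_pos).mpr (one_mem _)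
      have h2 : subst 1 (f 1) = f 1 := by
        rw [subst, expand_one, expand_one, RatFunc.num_div_denom]
      rw [mul_one, h2] at h1
      exact (mul_eq_left₀ h0).mp h1.symm
    | succ k ih =>
      rw [pow_succ, hf.2 _ _ (pow_pos hp.pos k) hp.pos, ih, ← pow_succ, sol_pow hp, sol_pow hp,
        sol_pow hp, sol_pow hp, subst, Finset.prod_range_succ, Finset.prod_range_succ, map_mul,
        map_mul, div_mul_div_comm]
  · by_contra hcon
    exact h ((hf.1 n hn).mp hcon)

lemma K_empty {f : ℕ → RatFunc ℂ} (hf : RationalSolution ∅ f) : K ∅ f := by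
  classical
  have hS : ∀ n, n ∈ S ∅ ↔ n = 1 := by
    intro n
    constructor
    · rintro ⟨_, h⟩
      by_contra hn
      obtain ⟨q, hq, hd⟩ := Nat.exists_prime_and_dvd hn
      exact h q hq hd
    · rintro rfl
      exact one_mem _
  have hE : Gamma ∅ (fun n => if n = 1 then (1 : ℂ[X]) else 0) := by
    refine ⟨fun n _ => ?_, fun m n hm hn => ?_⟩
    · rw [hS]
      by_cases h : n = 1 <;> simp [h]
    · by_cases h1 : m = 1
      · subst h1
        by_cases h2 : n = 1
        · simp [h2]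
        · simp [h2]
      · have : m * n ≠ 1 := fun h => h1 (Nat.eq_one_of_mul_eq_one_right h)
        simp [h1, this]
  refine ⟨_, _, hE, hE, fun n hn => ⟨fun h => ?_, fun h => ?_⟩⟩
  · have h1 := hf.2 1 1 one_pos one_pos
    have h0 : f 1 ≠ 0 := (hf.1 1 one_pos).mpr (one_mem _)
    have h2 : subst 1 (f 1) = f 1 := by
      rw [subst, expand_one, expand_one, RatFunc.num_div_denom]
    rw [mul_one, h2] at h1
    have h3 : f 1 = 1 := (mul_eq_left₀ h0).mp h1.symm
    rw [hS] at h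
    subst h
    simp [h3]
  · by_contra hcon
    exact h ((hf.1 n hn).mp hcon)

/-- **Theorem.** Let `P` be a set of primes. Every sequence of rational functions with support
`S(P)` which satisfies the functional equation lies in `K(Γ(P))` if and only if `P` has at most
one element. -/
theorem result (P : Set ℕ) (hP : ∀ p ∈ P, p.Prime) :
    (∀ f : ℕ → RatFunc ℂ, RationalSolution P f → K P f) ↔ P.Subsingleton := by
  constructor
  · intro h p hp r hr
    by_contra hpr
    obtain ⟨f, hf, hK⟩ := not_K (hP p hp) (hP r hr) hpr hp hr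
    exact hK (h f hf)
  · intro hsub f hf
    rcases hsub.eq_empty_or_singleton with rfl | ⟨p, rfl⟩
    · exact K_empty hf
    · exact K_singleton (hP p (Set.mem_singleton p)) hf

end Pool.Agent.L0h37.Known.QuotientsIffOnePrime
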